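import Pool.Agent.Helper6.MONO.Stmts

/-!
Module BLKO: effect of a block of odd index in the chart.
-/

set_option autoImplicit false
noncomputable section
namespace Pool.Agent.Helper6.MONO

/-! ### pure algebra -/

theorem blko_algA {K : Type*} [Field K] (κ hd he cc g R Sb P C S T X Y ι σ : K)
    (h2 : (2 : K) ≠ 0) (hκ : κ ≠ 0) (hcc : cc ≠ 0) (h4 : 4 - κ ^ 2 ≠ 0) (h2k : 2 + κ ≠ 0)
    (hhe : he = cc - κ * hd / 2) (hg : g = κ * hd / (4 * cc))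
    (hSb : Sb = (2 - κ) * (2 + κ) * (1 / (κ * κ))) (hP : P = R ^ 2 + Sb)
    (hC : C * P = R ^ 2 - Sb) (hS : S * P = 4 * R / κ) :
    κ / 4 * P * (T * (2 * hd * κ * (1 + ι) + κ ^ 2 * he * (1 - ι)) / (4 - κ ^ 2) +
      κ * (T * hd ^ 2 * Y / (4 * cc) - T * (2 * he * (1 - ι) + hd * κ * (1 + ι)) / (4 - κ ^ 2)) * C +
      σ * hd * κ * T * X * S / 2) =
    T * cc * (1 + (4 * g * (1 / κ) + 2 * g - 1) * ((1 / 4) * (2 - κ) +
        κ * κ * (R * R) * (1 / (4 * (2 + κ)))) +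
      ι * ((1 / 4) * (2 + κ) * (4 * g * (1 / κ) + 2 * g - 1) +
        κ * κ * (R * R) * (1 / (4 * (2 + κ))) * (4 * g * (1 / κ) - 2 * g + 1)) +
      2 * σ * (R * g) * X + (R * R - Sb) * (g * g) * Y) := by
  have e : κ / 4 * P * (T * (2 * hd * κ * (1 + ι) + κ ^ 2 * he * (1 - ι)) / (4 - κ ^ 2) +
      κ * (T * hd ^ 2 * Y / (4 * cc) - T * (2 * he * (1 - ι) + hd * κ * (1 + ι)) / (4 - κ ^ 2)) * C +
      σ * hd * κ * T * X * S / 2) =
      κ / 4 * (T * (2 * hd * κ * (1 + ι) + κ ^ 2 * he * (1 - ι)) / (4 - κ ^ 2) * P +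
      κ * (T * hd ^ 2 * Y / (4 * cc) - T * (2 * he * (1 - ι) + hd * κ * (1 + ι)) / (4 - κ ^ 2)) *
        (R ^ 2 - Sb) + σ * hd * κ * T * X * (4 * R / κ) / 2) := by
    rw [← hC, ← hS]
    ring
  have h44 : (4 : K) ≠ 0 := by
    have : (4 : K) = 2 * 2 := by norm_num
    rw [this]
    exact mul_ne_zero h2 h2
  have h2k' : 2 - κ ≠ 0 := by
    intro h
    apply h4
    have : 4 - κ ^ 2 = (2 - κ) * (2 + κ) := by ring
    rw [this, h, zero_mul]
  have h4f : 4 - κ ^ 2 = (2 - κ) * (2 + κ) := by ring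
  rw [e, hP, hSb, hhe, hg, h4f]
  field_simp
  ring

theorem blko_algB {K : Type*} [Field K] (κ hd he cc g b0 R Sb P C S C' S' T X Y ι σ : K)
    (h2 : (2 : K) ≠ 0) (hκ : κ ≠ 0) (hcc : cc ≠ 0) (h4 : 4 - κ ^ 2 ≠ 0)
    (hhe : he = cc - κ * hd / 2) (hg : g = κ * hd / (4 * cc)) (hb0 : b0 = 4 * g - 1)
    (hSb : Sb = (2 - κ) * (2 + κ) * (1 / (κ * κ)))
    (hC : C * P = R ^ 2 - Sb) (hS : S * P = 4 * R / κ)
    (hC' : C' = κ / 2 * C + (1 - κ ^ 2 / 4) * S) (hS' : S' = κ / 2 * S - C) :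
    -(κ / 4 * P * (2 * (T * (2 * he * (1 - ι) + hd * κ * (1 + ι)) / (4 - κ ^ 2) +
        (T * hd ^ 2 * Y / (4 * cc) - T * (2 * he * (1 - ι) + hd * κ * (1 + ι)) / (4 - κ ^ 2)) * C' +
        σ * hd * T * X * S' / 2) - T * he * (1 - ι) -
      (T * (2 * hd * κ * (1 + ι) + κ ^ 2 * he * (1 - ι)) / (4 - κ ^ 2) +
      κ * (T * hd ^ 2 * Y / (4 * cc) - T * (2 * he * (1 - ι) + hd * κ * (1 + ι)) / (4 - κ ^ 2)) * C +
      σ * hd * κ * T * X * S / 2))) =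
    T * cc * (R * (1 + ι * b0) + σ * ((R * R - Sb) * g * X) - 2 * (Sb * R * (g * g)) * Y) := by
  have h44 : (4 : K) ≠ 0 := by
    have : (4 : K) = 2 * 2 := by norm_num
    rw [this]
    exact mul_ne_zero h2 h2
  have h2k' : 2 - κ ≠ 0 := by
    intro h
    apply h4
    have : 4 - κ ^ 2 = (2 - κ) * (2 + κ) := by ring
    rw [this, h, zero_mul]
  have h2k : 2 + κ ≠ 0 := by
    intro h
    apply h4
    have : 4 - κ ^ 2 = (2 - κ) * (2 + κ) := by ring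
    rw [this, h, mul_zero]
  have h4f : 4 - κ ^ 2 = (2 - κ) * (2 + κ) := by ring
  have e : -(κ / 4 * P * (2 * (T * (2 * he * (1 - ι) + hd * κ * (1 + ι)) / (4 - κ ^ 2) +
        (T * hd ^ 2 * Y / (4 * cc) - T * (2 * he * (1 - ι) + hd * κ * (1 + ι)) / (4 - κ ^ 2)) * C' +
        σ * hd * T * X * S' / 2) - T * he * (1 - ι) -
      (T * (2 * hd * κ * (1 + ι) + κ ^ 2 * he * (1 - ι)) / (4 - κ ^ 2) +
      κ * (T * hd ^ 2 * Y / (4 * cc) - T * (2 * he * (1 - ι) + hd * κ * (1 + ι)) / (4 - κ ^ 2)) * C +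
      σ * hd * κ * T * X * S / 2))) =
      -(κ / 4 * (2 * (T * hd ^ 2 * Y / (4 * cc) -
        T * (2 * he * (1 - ι) + hd * κ * (1 + ι)) / (4 - κ ^ 2)) * (1 - κ ^ 2 / 4) * (S * P) -
        σ * hd * T * X * (C * P))) := by
    rw [hC', hS', h4f]
    field_simp
    ring
  rw [e, hC, hS, hSb, hhe, hb0, hg, h4f]
  field_simp
  ring

/-! ### trigonometry -/

theorem blko_trig (M m : ℕ) (hM : 3 ≤ M) (hm1 : 1 ≤ m) (hm : m ≤ M + 1) :
    0 < Rb M m ^ 2 + SbP (Kp M) ∧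
    Real.cos (m * (Real.pi / M)) * (Rb M m ^ 2 + SbP (Kp M)) = Rb M m ^ 2 - SbP (Kp M) ∧
    Real.sin (m * (Real.pi / M)) / Real.sin (Real.pi / M) * (Rb M m ^ 2 + SbP (Kp M)) =
      4 * Rb M m / Kp M ∧
    Real.cos (((m - 1 : ℕ) : ℝ) * (Real.pi / M)) = Kp M / 2 * Real.cos (m * (Real.pi / M)) +
      (1 - Kp M ^ 2 / 4) * (Real.sin (m * (Real.pi / M)) / Real.sin (Real.pi / M)) ∧
    Real.sin (((m - 1 : ℕ) : ℝ) * (Real.pi / M)) / Real.sin (Real.pi / M) =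
      Kp M / 2 * (Real.sin (m * (Real.pi / M)) / Real.sin (Real.pi / M)) -
        Real.cos (m * (Real.pi / M)) := by
  have hM' : (3 : ℝ) ≤ M := by exact_mod_cast hM
  have hMpos : (0 : ℝ) < M := by linarith
  have hm' : (m : ℝ) ≤ M + 1 := by exact_mod_cast hm
  have hm1' : (1 : ℝ) ≤ m := by exact_mod_cast hm1
  obtain ⟨φ, hφ⟩ : ∃ φ, φ = Real.pi / (M : ℝ) := ⟨_, rfl⟩
  have hφ0 : 0 < φ := by rw [hφ]; exact div_pos Real.pi_pos hMpos
  have hφM : φ * M = Real.pi := by rw [hφ]; field_simp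
  have hφ2 : φ < Real.pi / 2 := by nlinarith [Real.pi_pos]
  have hsin : 0 < Real.sin φ := Real.sin_pos_of_pos_of_lt_pi hφ0 (by linarith [Real.pi_pos])
  have hcos : 0 < Real.cos φ := Real.cos_pos_of_mem_Ioo ⟨by linarith [Real.pi_pos], hφ2⟩
  have hα1 : 0 < (m : ℝ) * φ / 2 := by positivity
  have hα2 : (m : ℝ) * φ / 2 < Real.pi := by nlinarith [Real.pi_pos]
  have hsα : 0 < Real.sin ((m : ℝ) * φ / 2) := Real.sin_pos_of_pos_of_lt_pi hα1 hα2
  have hK : Kp M = 2 * Real.cos φ := by rw [hφ]; rfl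
  have hR : Rb M m = Real.sin φ / Real.cos φ *
      (Real.cos ((m : ℝ) * φ / 2) / Real.sin ((m : ℝ) * φ / 2)) := by
    unfold Rb
    rw [← hφ, Real.tan_eq_sin_div_cos]
  have hc2 : Real.cos ((m : ℝ) * φ) = Real.cos ((m : ℝ) * φ / 2) ^ 2 -
      Real.sin ((m : ℝ) * φ / 2) ^ 2 := by
    have : (m : ℝ) * φ = 2 * ((m : ℝ) * φ / 2) := by ring
    conv_lhs => rw [this, Real.cos_two_mul']
  have hs2 : Real.sin ((m : ℝ) * φ) = 2 * Real.sin ((m : ℝ) * φ / 2) *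
      Real.cos ((m : ℝ) * φ / 2) := by
    have : (m : ℝ) * φ = 2 * ((m : ℝ) * φ / 2) := by ring
    conv_lhs => rw [this, Real.sin_two_mul]
  have hm1c : ((m - 1 : ℕ) : ℝ) * φ = (m : ℝ) * φ - φ := by
    rw [Nat.cast_sub hm1]; push_cast; ring
  rw [← hφ]
  have hcs := Real.sin_sq_add_cos_sq φ
  have hcsα := Real.sin_sq_add_cos_sq ((m : ℝ) * φ / 2)
  have hSb : SbP (Kp M) = Real.sin φ ^ 2 / Real.cos φ ^ 2 := by
    unfold SbP
    rw [hK]
    have : Real.sin φ ^ 2 = 1 - Real.cos φ ^ 2 := by linarith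
    rw [this]
    field_simp
    ring
  have hPe : Rb M m ^ 2 + SbP (Kp M) =
      Real.sin φ ^ 2 / (Real.cos φ ^ 2 * Real.sin ((m : ℝ) * φ / 2) ^ 2) := by
    rw [hR, hSb]
    have h1 : Real.cos ((m : ℝ) * φ / 2) ^ 2 = 1 - Real.sin ((m : ℝ) * φ / 2) ^ 2 := by linarith
    field_simp
    rw [h1]
    ring
  refine ⟨?_, ?_, ?_, ?_, ?_⟩
  · rw [hPe]; positivity
  · rw [hPe, hc2, hR, hSb]
    field_simp
  · rw [hPe, hs2, hR, hK]
    field_simp
    ring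
  · rw [hm1c, Real.cos_sub, hK]
    have : Real.sin φ ^ 2 = 1 - Real.cos φ ^ 2 := by linarith
    have h1 : 1 - (2 * Real.cos φ) ^ 2 / 4 = Real.sin φ ^ 2 := by rw [this]; ring
    rw [h1]
    field_simp
  · rw [hm1c, Real.sin_sub, hK]
    field_simp

/-! ### Coxeter data -/

theorem blko_Kp (M : ℕ) (hM : 3 ≤ M) : 0 < Kp M ∧ Kp M < 2 := by
  have hM' : (3 : ℝ) ≤ M := by exact_mod_cast hM
  have hMpos : (0 : ℝ) < M := by linarith
  obtain ⟨φ, hφ⟩ : ∃ φ, φ = Real.pi / (M : ℝ) := ⟨_, rfl⟩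
  have hφ0 : 0 < φ := by rw [hφ]; exact div_pos Real.pi_pos hMpos
  have hφM : φ * M = Real.pi := by rw [hφ]; field_simp
  have hφ2 : φ < Real.pi / 2 := by nlinarith [Real.pi_pos]
  have hcos : 0 < Real.cos φ := Real.cos_pos_of_mem_Ioo ⟨by linarith [Real.pi_pos], hφ2⟩
  have hcos1 : Real.cos φ < 1 := by
    have h := Real.cos_lt_cos_of_nonneg_of_le_pi (le_refl 0) (by linarith [Real.pi_pos]) hφ0
    rwa [Real.cos_zero] at h
  unfold Kp
  rw [← hφ]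
  constructor <;> linarith

theorem blko_mm3 (p q r : ℕ) (hp : 3 ≤ p) (hq : 3 ≤ q) (hr : 3 ≤ r) (i j : Fin 3) (h : i ≠ j) :
    3 ≤ mm p q r i j := by
  fin_cases i <;> fin_cases j <;> simp_all [mm]

theorem blko_mmsym (p q r : ℕ) (i j : Fin 3) : mm p q r i j = mm p q r j i := by
  fin_cases i <;> fin_cases j <;> simp [mm]

theorem blko_kksym (p q r : ℕ) (i j : Fin 3) : kk p q r i j = kk p q r j i := by
  unfold kk
  rw [blko_mmsym]

theorem blko_kkpos (p q r : ℕ) (hp : 3 ≤ p) (hq : 3 ≤ q) (hr : 3 ≤ r) (i j : Fin 3) (h : i ≠ j) :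
    0 < kk p q r i j ∧ kk p q r i j < 2 := blko_Kp _ (blko_mm3 p q r hp hq hr i j h)

theorem blko_sgs (c d e : Fin 3) (h : Dist c d e) : sgs d e = sgs c d ∧ sgs c d ^ 2 = 1 := by
  obtain ⟨h1, h2, h3⟩ := h
  fin_cases c <;> fin_cases d <;> fin_cases e <;> simp_all [sgs]

theorem blko_iot_sq (τ : ℝ) (c d e : Fin 3) (h : Dist c d e) :
    iot τ c d ^ 2 = -((τ ^ 2 : ℝ) : ℂ) := by
  unfold iot
  rw [mul_pow, Complex.I_sq]
  have h1 : ((sgs c d * τ : ℝ) : ℂ) ^ 2 = ((τ ^ 2 : ℝ) : ℂ) := by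
    rw [← Complex.ofReal_pow, mul_pow, (blko_sgs c d e h).2, one_mul]
  rw [h1]
  ring

theorem blko_one_iot (τ : ℝ) (c d : Fin 3) : 1 + iot τ c d ≠ 0 ∧ 1 - iot τ c d ≠ 0 := by
  constructor
  · intro h
    have := congrArg Complex.re h
    simp [iot] at this
  · intro h
    have := congrArg Complex.re h
    simp [iot] at this

/-- the triple product at a star -/
theorem blko_tri (p q r : ℕ) (τ : ℝ) (G : Fin 3 → Fin 3 → ℂ) (hG : IsG p q r τ G)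
    (c d e : Fin 3) (h : Dist c d e) :
    G c d * G d e * G e c * (1 - iot τ c d) =
      (kk p q r c d * kk p q r d e * kk p q r c e : ℝ) * (1 + iot τ c d) := by
  have hI1 : (1 - (τ : ℂ) * Complex.I) ≠ 0 := by
    intro h
    have := congrArg Complex.re h
    simp at this
  have hI2 : (1 + (τ : ℂ) * Complex.I) ≠ 0 := by
    intro h
    have := congrArg Complex.re h
    simp at this
  have t1 : G 0 1 * G 1 2 * G 2 0 * (1 - τ * Complex.I) =
      (kk p q r 0 1 * kk p q r 1 2 * kk p q r 2 0 : ℝ) * (1 + τ * Complex.I) := by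
    rw [hG.tri]
    field_simp
  have t2 : G 1 0 * G 2 1 * G 0 2 * (1 + τ * Complex.I) =
      (kk p q r 0 1 * kk p q r 1 2 * kk p q r 2 0 : ℝ) * (1 - τ * Complex.I) := by
    have h1 := congrArg star t1
    rw [star_mul', star_mul', star_mul', star_mul', star_sub, star_add, star_mul'] at h1
    rw [hG.herm 0 1, hG.herm 1 2, hG.herm 2 0]
    have h3 : star Complex.I = -Complex.I := Complex.conj_I
    have h4 : ∀ x : ℝ, star (x : ℂ) = (x : ℂ) := fun x => Complex.conj_ofReal x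
    rw [h3, h4, h4, star_one] at h1
    linear_combination h1
  have k1 : kk p q r 1 0 = kk p q r 0 1 := blko_kksym _ _ _ _ _
  have k2 : kk p q r 2 1 = kk p q r 1 2 := blko_kksym _ _ _ _ _
  have k3 : kk p q r 0 2 = kk p q r 2 0 := blko_kksym _ _ _ _ _
  obtain ⟨h1, h2, h3⟩ := h
  fin_cases c <;> fin_cases d <;> fin_cases e <;>
    first
      | exact absurd rfl h1
      | exact absurd rfl h2
      | exact absurd rfl h3
      | (simp only [iot, sgs, Fin.zero_eta, Fin.mk_one, Fin.reduceFinMk, Fin.isValue, k1, k2, k3]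
         norm_num
         push_cast at t1 t2 ⊢
         first
           | linear_combination t1
           | linear_combination t2)

/-! ### the step in the chart -/

theorem blko_gP (k hd he : ℝ) (hk : 0 < k) (hhd : 0 < hd) (hhe : 0 < he) :
    gP k hd he = k * hd / (4 * cP k hd he) := by
  unfold gP cP
  have : 0 < k * hd / 2 + he := by positivity
  field_simp
  ring

/-- `D` as a complex number -/
theorem blko_D (s k hd he R : ℝ) (ε : Bool) (z : RV) (ι σ : ℂ) (hι : ι ^ 2 = -(s : ℂ))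
    (hσ : σ = if ε then 1 else -1) :
    (vDr s ε false z k hd he R : ℂ) + σ * ι * (vDi s ε false z k hd he R : ℂ) =
    1 + (4 * (gP k hd he : ℂ) * (1 / (k : ℂ)) + 2 * (gP k hd he : ℂ) - 1) *
        ((1 / 4) * (2 - (k : ℂ)) +
        (k : ℂ) * k * ((R : ℂ) * R) * (1 / (4 * (2 + (k : ℂ))))) +
      ι * ((1 / 4) * (2 + (k : ℂ)) * (4 * (gP k hd he : ℂ) * (1 / (k : ℂ)) +
        2 * (gP k hd he : ℂ) - 1) +
        (k : ℂ) * k * ((R : ℂ) * R) * (1 / (4 * (2 + (k : ℂ)))) *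
          (4 * (gP k hd he : ℂ) * (1 / (k : ℂ)) - 2 * (gP k hd he : ℂ) + 1)) +
      2 * σ * ((R : ℂ) * (gP k hd he : ℂ)) * ((1 + ι) * ((z.a : ℂ) + ι * z.b)) +
      ((R : ℂ) * R - (SbP k : ℂ)) * ((gP k hd he : ℂ) * (gP k hd he : ℂ)) *
        ((1 + (s : ℂ)) * ((z.yr : ℂ) + ι * z.be)) := by
  have hs : (s : ℂ) = -ι ^ 2 := by rw [hι]; ring
  cases ε
  · have hσ' : σ = -1 := by simpa using hσ
    subst hσ'
    simp only [vDr, vDi, vXr, vXi, vYr, vYi, CrP, CiP, etaP, zetP, qP, rsg_false,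
      Bool.false_eq_true, if_false]
    push_cast
    rw [hs]
    ring
  · have hσ' : σ = 1 := by simpa using hσ
    subst hσ'
    simp only [vDr, vDi, vXr, vXi, vYr, vYi, CrP, CiP, etaP, zetP, qP, rsg_true,
      Bool.false_eq_true, if_false]
    push_cast
    rw [hs]
    ring

/-- `N` as a complex number -/
theorem blko_N (s k hd he R : ℝ) (ε : Bool) (z : RV) (ι σ : ℂ) (hι : ι ^ 2 = -(s : ℂ))
    (hσ : σ = if ε then 1 else -1) :
    (vNr s ε z k hd he R : ℂ) + σ * ι * (vNi s ε z k hd he R : ℂ) =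
    (R : ℂ) * (1 + ι * (b0P k hd he : ℂ)) +
      σ * (((R : ℂ) * R - (SbP k : ℂ)) * (gP k hd he : ℂ) * ((1 + ι) * ((z.a : ℂ) + ι * z.b))) -
      2 * ((SbP k : ℂ) * R * ((gP k hd he : ℂ) * (gP k hd he : ℂ))) *
        ((1 + (s : ℂ)) * ((z.yr : ℂ) + ι * z.be)) := by
  have hs : (s : ℂ) = -ι ^ 2 := by rw [hι]; ring
  cases ε
  · have hσ' : σ = -1 := by simpa using hσ
    subst hσ'
    simp only [vNr, vNi, vXr, vXi, vYr, vYi, rsg_false]
    push_cast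
    rw [hs]
    ring
  · have hσ' : σ = 1 := by simpa using hσ
    subst hσ'
    simp only [vNr, vNi, vXr, vXi, vYr, vYi, rsg_true]
    push_cast
    rw [hs]
    ring

/-- `(a' + ι b') D = N` and `(yr' + ι be') D = yf` -/
theorem blko_quot (s k hd he R : ℝ) (ε : Bool) (z : RV) (ι σ : ℂ) (hι : ι ^ 2 = -(s : ℂ))
    (hσ : σ = if ε then 1 else -1) (hn : vn s ε false z k hd he R ≠ 0) :
    (((vstep s ε false z k hd he R).a : ℂ) + ι * ((vstep s ε false z k hd he R).b : ℂ)) *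
      ((vDr s ε false z k hd he R : ℂ) + σ * ι * (vDi s ε false z k hd he R : ℂ)) =
      (vNr s ε z k hd he R : ℂ) + σ * ι * (vNi s ε z k hd he R : ℂ) ∧
    (((vstep s ε false z k hd he R).yr : ℂ) + ι * ((vstep s ε false z k hd he R).be : ℂ)) *
      ((vDr s ε false z k hd he R : ℂ) + σ * ι * (vDi s ε false z k hd he R : ℂ)) =
      (yfP false k hd he R : ℂ) ∧
    ((vDr s ε false z k hd he R : ℂ) + σ * ι * (vDi s ε false z k hd he R : ℂ)) ≠ 0 := by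
  obtain ⟨Dr, hDr⟩ : ∃ x, x = vDr s ε false z k hd he R := ⟨_, rfl⟩
  obtain ⟨Di, hDi⟩ : ∃ x, x = vDi s ε false z k hd he R := ⟨_, rfl⟩
  obtain ⟨Nr, hNr⟩ : ∃ x, x = vNr s ε z k hd he R := ⟨_, rfl⟩
  obtain ⟨Ni, hNi⟩ : ∃ x, x = vNi s ε z k hd he R := ⟨_, rfl⟩
  obtain ⟨yf, hyf⟩ : ∃ x, x = yfP false k hd he R := ⟨_, rfl⟩
  have hne : vn s ε false z k hd he R = Dr * Dr + s * (Di * Di) := by
    rw [hDr, hDi]; rfl
  rw [hne] at hn
  have hnC : ((Dr * Dr + s * (Di * Di) : ℝ) : ℂ) ≠ 0 := by exact_mod_cast hn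
  have hs : (s : ℂ) = -ι ^ 2 := by rw [hι]; ring
  have hσ2 : σ ^ 2 = 1 := by
    rw [hσ]; cases ε <;> norm_num
  have ea : (vstep s ε false z k hd he R).a = (Nr * Dr + s * (Ni * Di)) /
      (Dr * Dr + s * (Di * Di)) := by
    rw [hDr, hDi, hNr, hNi]; rfl
  have eb : ((vstep s ε false z k hd he R).b : ℂ) = σ * (((Ni * Dr - Nr * Di) /
      (Dr * Dr + s * (Di * Di)) : ℝ) : ℂ) := by
    have h1 : (vstep s ε false z k hd he R).b = rsg ε ((Ni * Dr - Nr * Di) /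
        (Dr * Dr + s * (Di * Di))) := by
      rw [hDr, hDi, hNr, hNi]
      cases ε <;> rfl
    rw [h1, hσ]
    cases ε
    · simp [rsg_false]
    · simp [rsg_true]
  have ey : (vstep s ε false z k hd he R).yr = yf * Dr / (Dr * Dr + s * (Di * Di)) := by
    rw [hDr, hDi, hyf]; rfl
  have ebe : ((vstep s ε false z k hd he R).be : ℂ) = -(σ * ((yf * Di /
      (Dr * Dr + s * (Di * Di)) : ℝ) : ℂ)) := by
    have h1 : (vstep s ε false z k hd he R).be = rsg ε (-(yf * Di /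
        (Dr * Dr + s * (Di * Di)))) := by
      rw [hDr, hDi, hyf]
      cases ε <;> rfl
    rw [h1, hσ]
    cases ε
    · simp [rsg_false]
    · simp [rsg_true]
  rw [ea, eb, ey, ebe, ← hDr, ← hDi, ← hNr, ← hNi, ← hyf]
  push_cast at hnC ⊢
  have hfac : ((Dr : ℂ) + σ * ι * Di) * ((Dr : ℂ) - σ * ι * Di) =
      (Dr : ℂ) * Dr + s * ((Di : ℂ) * Di) := by
    rw [hs]
    linear_combination (-(ι ^ 2 * Di ^ 2)) * hσ2
  obtain ⟨n, hnn⟩ : ∃ n : ℂ, n = (Dr : ℂ) * Dr + s * ((Di : ℂ) * Di) := ⟨_, rfl⟩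
  rw [← hnn] at hnC hfac
  rw [← hnn]
  refine ⟨?_, ?_, ?_⟩
  · have e1 : ((Nr : ℂ) * Dr + s * ((Ni : ℂ) * Di)) / n + ι * (σ * (((Ni : ℂ) * Dr - Nr * Di) / n)) =
        ((Nr : ℂ) + σ * ι * Ni) * ((Dr : ℂ) - σ * ι * Di) / n := by
      field_simp
      rw [hs]
      linear_combination (ι ^ 2 * Ni * Di) * hσ2
    rw [e1]
    field_simp
    rw [← hfac]
    ring
  · have e1 : (yf : ℂ) * Dr / n + ι * -(σ * ((yf : ℂ) * Di / n)) =
        (yf : ℂ) * ((Dr : ℂ) - σ * ι * Di) / n := by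
      field_simp
      ring
    rw [e1]
    field_simp
    rw [← hfac]
    ring
  · intro h0
    apply hnC
    rw [← hfac, h0, zero_mul]

theorem blko_core (κ hd he R s t : ℝ) (ε : Bool) (z : RV)
    (ι σ a1 a1' a2 a2' a3 a3' ξ xd xe yd ye pe pd f : ℂ) (C S C' S' P : ℝ)
    (hκ : 0 < κ) (hκ2 : κ < 2) (hhd : 0 < hd) (hhe : 0 < he)
    (hιt : ι = (t : ℂ) * Complex.I) (hst : t ^ 2 = s)
    (hσ : σ = if ε then 1 else -1)
    (n1 : a1 * a1' = ((hd ^ 2 : ℝ) : ℂ)) (n2 : a2 * a2' = ((κ ^ 2 : ℝ) : ℂ))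
    (n3 : a3 * a3' = ((he ^ 2 : ℝ) : ℂ)) (m1 : ‖a1‖ = hd) (m2 : ‖a2‖ = κ)
    (tri : a1 * a2 * a3 * (1 - ι) = ((hd * κ * he : ℝ) : ℂ) * (1 + ι)) (hξ : ξ ≠ 0)
    (hu : -(2 * xd - a2' * xe - a1 * ξ) * a1' = ((hd ^ 2 : ℝ) : ℂ) * ξ * ((z.a : ℂ) + ι * z.b))
    (hy : ((4 * cP κ hd he : ℝ) : ℂ) * a3 * xe =
      ((he * hd ^ 2 : ℝ) : ℂ) * ξ * (1 + ι) * ((z.yr : ℂ) + ι * z.be))
    (hn : vn s ε false z κ hd he R ≠ 0)
    (hP : P = R ^ 2 + SbP κ) (hP0 : 0 < P) (hC : C * P = R ^ 2 - SbP κ) (hS : S * P = 4 * R / κ)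
    (hC' : C' = κ / 2 * C + (1 - κ ^ 2 / 4) * S) (hS' : S' = κ / 2 * S - C)
    (hyd : yd = pd + (a2' / κ) * (xe - pe) * C - σ * f * S / 2)
    (hye : ye = pe + (xe - pe) * C' - σ * (a2 / κ) * f * S' / 2)
    (hpe : pe = (2 * (a3' * ξ) + a2 * (a1 * ξ)) / ((4 - κ ^ 2 : ℝ) : ℂ))
    (hpd : pd = (2 * (a1 * ξ) + a2' * (a3' * ξ)) / ((4 - κ ^ 2 : ℝ) : ℂ))
    (hf : f = 2 * xd - a2' * xe - a1 * ξ) :
    yd ≠ 0 ∧
    -(2 * ye - a3' * ξ - a2 * yd) * a2' = ((κ ^ 2 : ℝ) : ℂ) * yd *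
      (((vstep s ε false z κ hd he R).a : ℂ) + ι * ((vstep s ε false z κ hd he R).b : ℂ)) ∧
    ((4 * cP he κ hd : ℝ) : ℂ) * a1 * ξ = ((hd * κ ^ 2 : ℝ) : ℂ) * yd * (1 + ι) *
      (((vstep s ε false z κ hd he R).yr : ℂ) + ι * ((vstep s ε false z κ hd he R).be : ℂ)) ∧
    ‖yd‖ ^ 2 = fac s ε false z κ hd he R * ‖ξ‖ ^ 2 := by
  have hι : ι ^ 2 = -(s : ℂ) := by
    rw [hιt, mul_pow, Complex.I_sq, ← hst]; push_cast; ring
  have h1ι : 1 + ι ≠ 0 := by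
    rw [hιt]; intro h
    have := congrArg Complex.re h
    simp at this
  have h2ι : 1 - ι ≠ 0 := by
    rw [hιt]; intro h
    have := congrArg Complex.re h
    simp at this
  have hκC : (κ : ℂ) ≠ 0 := by exact_mod_cast hκ.ne'
  have hhdC : (hd : ℂ) ≠ 0 := by exact_mod_cast hhd.ne'
  have hheC : (he : ℂ) ≠ 0 := by exact_mod_cast hhe.ne'
  have hccR : 0 < cP κ hd he := by unfold cP; positivity
  have hccC : (cP κ hd he : ℂ) ≠ 0 := by exact_mod_cast hccR.ne'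
  have hPC : (P : ℂ) ≠ 0 := by exact_mod_cast hP0.ne'
  have h4R : (4 - κ ^ 2 : ℝ) ≠ 0 := by nlinarith
  have h4C : (4 : ℂ) - (κ : ℂ) ^ 2 ≠ 0 := by exact_mod_cast h4R
  have h2k : (2 : ℂ) + (κ : ℂ) ≠ 0 := by
    have : (2 + κ : ℝ) ≠ 0 := by positivity
    exact_mod_cast this
  have ha1 : a1 ≠ 0 := by
    intro h; rw [h, zero_mul] at n1
    have : ((hd ^ 2 : ℝ) : ℂ) ≠ 0 := by exact_mod_cast (pow_pos hhd 2).ne'
    exact this n1.symm
  have ha2 : a2 ≠ 0 := by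
    intro h; rw [h, zero_mul] at n2
    have : ((κ ^ 2 : ℝ) : ℂ) ≠ 0 := by exact_mod_cast (pow_pos hκ 2).ne'
    exact this n2.symm
  have ha3 : a3 ≠ 0 := by
    intro h; rw [h, zero_mul] at n3
    have : ((he ^ 2 : ℝ) : ℂ) ≠ 0 := by exact_mod_cast (pow_pos hhe 2).ne'
    exact this n3.symm
  have ha1' : a1' ≠ 0 := by
    intro h; rw [h, mul_zero] at n1
    have : ((hd ^ 2 : ℝ) : ℂ) ≠ 0 := by exact_mod_cast (pow_pos hhd 2).ne'
    exact this n1.symm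
  have ha3' : a3' ≠ 0 := by
    intro h; rw [h, mul_zero] at n3
    have : ((he ^ 2 : ℝ) : ℂ) ≠ 0 := by exact_mod_cast (pow_pos hhe 2).ne'
    exact this n3.symm
  push_cast at n1 n2 n3 tri hu hy hpe hpd
  obtain ⟨T, hT⟩ : ∃ T, T = a1 * a2 * ξ / ((hd : ℂ) * κ * (1 + ι)) := ⟨_, rfl⟩
  have t1 : a1 * a2 * ξ = T * hd * κ * (1 + ι) := by
    rw [hT]; field_simp
  have hT0 : T ≠ 0 := by
    intro h
    rw [h, zero_mul, zero_mul, zero_mul] at t1
    exact mul_ne_zero (mul_ne_zero ha1 ha2) hξ t1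
  obtain ⟨u, hu'⟩ : ∃ u : ℂ, u = (z.a : ℂ) + ι * z.b := ⟨_, rfl⟩
  obtain ⟨yy, hyy⟩ : ∃ yy : ℂ, yy = (z.yr : ℂ) + ι * z.be := ⟨_, rfl⟩
  obtain ⟨cc, hcc⟩ : ∃ cc : ℂ, cc = (cP κ hd he : ℂ) := ⟨_, rfl⟩
  rw [← hu', ← hf] at hu
  rw [← hyy, ← hcc] at hy
  rw [← hcc] at hccC
  have t2 : a3' * ξ = T * he * (1 - ι) := by
    have hne : a3 * hd * κ * (1 + ι) ≠ 0 :=
      mul_ne_zero (mul_ne_zero (mul_ne_zero ha3 hhdC) hκC) h1ι
    apply mul_right_cancel₀ hne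
    linear_combination (ξ * hd * κ * (1 + ι)) * n3 + (a3 * he * (1 - ι)) * t1 - he * ξ * tri
  have t3 : a2 * f = -(T * hd * κ * ((1 + ι) * u)) := by
    apply mul_right_cancel₀ (pow_ne_zero 2 hhdC)
    linear_combination (-(a2 * f)) * n1 - a1 * a2 * hu - (hd : ℂ) ^ 2 * u * t1
  have t4 : xe = T * hd ^ 2 * ((1 + (s : ℂ)) * yy) / (4 * cc) := by
    rw [eq_div_iff (mul_ne_zero (by norm_num) hccC)]
    apply mul_right_cancel₀ (pow_ne_zero 2 hheC)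
    linear_combination (-(4 * cc * xe)) * n3 + a3' * hy + he * (hd : ℂ) ^ 2 * (1 + ι) * yy * t2 -
      T * (he : ℂ) ^ 2 * (hd : ℂ) ^ 2 * yy * hι
  have t5 : pe = T * (2 * he * (1 - ι) + hd * κ * (1 + ι)) / (4 - (κ : ℂ) ^ 2) := by
    rw [hpe]
    rw [div_left_inj' h4C]
    linear_combination 2 * t2 + t1
  have t6 : a2 * pd = T * (2 * hd * κ * (1 + ι) + (κ : ℂ) ^ 2 * he * (1 - ι)) /
      (4 - (κ : ℂ) ^ 2) := by
    rw [hpd, ← mul_div_assoc]
    rw [div_left_inj' h4C]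
    linear_combination 2 * t1 + (κ : ℂ) ^ 2 * t2 + (a3' * ξ) * n2
  have hCc : (C : ℂ) * P = (R : ℂ) ^ 2 - (SbP κ : ℂ) := by exact_mod_cast hC
  have hSc : (S : ℂ) * P = 4 * (R : ℂ) / κ := by exact_mod_cast hS
  have hC'c : (C' : ℂ) = κ / 2 * C + (1 - (κ : ℂ) ^ 2 / 4) * S := by exact_mod_cast hC'
  have hS'c : (S' : ℂ) = κ / 2 * S - C := by exact_mod_cast hS'
  have hPc : (P : ℂ) = (R : ℂ) ^ 2 + (SbP κ : ℂ) := by exact_mod_cast hP
  have hSbc : (SbP κ : ℂ) = (2 - (κ : ℂ)) * (2 + κ) * (1 / ((κ : ℂ) * κ)) := by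
    unfold SbP; push_cast; ring
  have hgR : gP κ hd he = κ * hd / (4 * cP κ hd he) := blko_gP κ hd he hκ hhd hhe
  have hgc : (gP κ hd he : ℂ) = κ * hd / (4 * cc) := by rw [hcc]; exact_mod_cast hgR
  have hhec : (he : ℂ) = cc - κ * hd / 2 := by
    rw [hcc]; unfold cP; push_cast; ring
  have hb0c : (b0P κ hd he : ℂ) = 4 * (gP κ hd he : ℂ) - 1 := by unfold b0P; push_cast; ring
  obtain ⟨q1, q2, q3⟩ := blko_quot s κ hd he R ε z ι σ hι hσ hn
  obtain ⟨D, hD⟩ : ∃ D, D = (vDr s ε false z κ hd he R : ℂ) +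
    σ * ι * (vDi s ε false z κ hd he R : ℂ) := ⟨_, rfl⟩
  obtain ⟨N, hN⟩ : ∃ N, N = (vNr s ε z κ hd he R : ℂ) +
    σ * ι * (vNi s ε z κ hd he R : ℂ) := ⟨_, rfl⟩
  have eD := blko_D s κ hd he R ε z ι σ hι hσ
  have eN := blko_N s κ hd he R ε z ι σ hι hσ
  rw [← hD] at q1 q2 q3 eD
  rw [← hN] at q1 eN
  rw [← hu', ← hyy] at eD eN
  have t7 : a2 * yd = T * (2 * hd * κ * (1 + ι) + (κ : ℂ) ^ 2 * he * (1 - ι)) /
      (4 - (κ : ℂ) ^ 2) + κ * (T * hd ^ 2 * ((1 + (s : ℂ)) * yy) / (4 * cc) -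
        T * (2 * he * (1 - ι) + hd * κ * (1 + ι)) / (4 - (κ : ℂ) ^ 2)) * C +
      σ * hd * κ * T * ((1 + ι) * u) * S / 2 := by
    rw [hyd, ← t4, ← t5, ← t6]
    have e1 : a2 * (a2' / κ) = κ := by
      rw [← mul_div_assoc, n2]; field_simp
    linear_combination ((xe - pe) * C) * e1 - σ * S / 2 * t3
  have A : κ / 4 * P * (a2 * yd) = T * cc * D := by
    rw [t7, eD]
    exact blko_algA (κ : ℂ) hd he cc (gP κ hd he) R (SbP κ) P C S T ((1 + ι) * u)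
      ((1 + (s : ℂ)) * yy) ι σ (by norm_num) hκC hccC h4C h2k hhec hgc hSbc hPc hCc hSc
  have t8 : 2 * ye - a3' * ξ - a2 * yd = 2 * (T * (2 * he * (1 - ι) + hd * κ * (1 + ι)) /
        (4 - (κ : ℂ) ^ 2) +
        (T * hd ^ 2 * ((1 + (s : ℂ)) * yy) / (4 * cc) -
          T * (2 * he * (1 - ι) + hd * κ * (1 + ι)) / (4 - (κ : ℂ) ^ 2)) * C' +
        σ * hd * T * ((1 + ι) * u) * S' / 2) - T * he * (1 - ι) -
      (T * (2 * hd * κ * (1 + ι) + (κ : ℂ) ^ 2 * he * (1 - ι)) / (4 - (κ : ℂ) ^ 2) +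
      κ * (T * hd ^ 2 * ((1 + (s : ℂ)) * yy) / (4 * cc) -
        T * (2 * he * (1 - ι) + hd * κ * (1 + ι)) / (4 - (κ : ℂ) ^ 2)) * C +
      σ * hd * κ * T * ((1 + ι) * u) * S / 2) := by
    rw [← t7, hye, t2, ← t4, ← t5]
    have e1 : a2 / κ * f = -(T * hd * ((1 + ι) * u)) := by
      rw [div_mul_eq_mul_div, t3]; field_simp
    linear_combination (-(σ * S')) * e1
  have B : -(κ / 4 * P * (2 * ye - a3' * ξ - a2 * yd)) = T * cc * N := by
    rw [t8, eN]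
    exact blko_algB (κ : ℂ) hd he cc (gP κ hd he) (b0P κ hd he) R (SbP κ) P C S C' S' T
      ((1 + ι) * u) ((1 + (s : ℂ)) * yy) ι σ (by norm_num) hκC hccC h4C hhec hgc hb0c hSbc hCc hSc
      hC'c hS'c
  have hfne : (κ : ℂ) / 4 * P * a2 * D ≠ 0 :=
    mul_ne_zero (mul_ne_zero (mul_ne_zero (div_ne_zero hκC (by norm_num)) hPC) ha2) q3
  refine ⟨?_, ?_, ?_, ?_⟩
  · intro h0
    rw [h0, mul_zero, mul_zero] at A
    exact mul_ne_zero (mul_ne_zero hT0 hccC) q3 A.symm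
  · apply mul_right_cancel₀ hfne
    push_cast
    linear_combination (-((2 * ye - a3' * ξ - a2 * yd) * (κ / 4) * P * D)) * n2 +
      D * (κ : ℂ) ^ 2 * B - (κ : ℂ) ^ 2 * (((vstep s ε false z κ hd he R).a : ℂ) +
        ι * ((vstep s ε false z κ hd he R).b : ℂ)) * D * A -
      (κ : ℂ) ^ 2 * T * cc * D * q1
  · apply mul_right_cancel₀ hfne
    have hcr : (cP he κ hd : ℂ) * P = cc * (yfP false κ hd he R : ℂ) := by
      rw [hcc]
      have : cP he κ hd * P = cP κ hd he * yfP false κ hd he R := by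
        rw [hP]
        simp only [yfP, crP, etaP, Bool.false_eq_true, if_false]
        rw [hgR]
        have hc : cP κ hd he ≠ 0 := hccR.ne'
        have hc2 : he = cP κ hd he - κ * hd / 2 := by unfold cP; ring
        have hc3 : cP he κ hd = he * κ / 2 + hd := rfl
        rw [hc3]
        generalize cP κ hd he = w at hc hc2
        rw [hc2]
        field_simp
        ring
      exact_mod_cast this
    push_cast
    linear_combination ((cP he κ hd : ℂ) * κ * P * D) * t1 -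
      (hd : ℂ) * (κ : ℂ) ^ 2 * (1 + ι) * (((vstep s ε false z κ hd he R).yr : ℂ) +
        ι * ((vstep s ε false z κ hd he R).be : ℂ)) * D * A -
      (hd : ℂ) * (κ : ℂ) ^ 2 * (1 + ι) * T * cc * D * q2 +
      (hd : ℂ) * (κ : ℂ) ^ 2 * (1 + ι) * T * D * hcr
  · have hs0 : 0 ≤ s := by rw [← hst]; positivity
    have nι : ‖1 + ι‖ ^ 2 = 1 + s := by
      rw [hιt, ← hst, ← Complex.normSq_eq_norm_sq, Complex.normSq_apply]
      simp
      ring
    have nT : ‖T‖ ^ 2 * (1 + s) = ‖ξ‖ ^ 2 := by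
      have h1 := congrArg (fun x => ‖x‖ ^ 2) t1
      simp only [norm_mul, mul_pow, Complex.norm_real, Real.norm_eq_abs, sq_abs, m1, m2, nι] at h1
      have h2 : hd ^ 2 * κ ^ 2 ≠ 0 := by positivity
      apply mul_left_cancel₀ h2
      linarith
    have nD : ‖D‖ ^ 2 = vn s ε false z κ hd he R := by
      rw [hD, ← Complex.normSq_eq_norm_sq, Complex.normSq_apply, hσ, hιt]
      unfold vn
      rw [← hst]
      cases ε <;> simp <;> ring
    have nA := congrArg (fun x => ‖x‖ ^ 2) A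
    simp only [norm_mul, norm_div, mul_pow, div_pow, Complex.norm_real, Real.norm_eq_abs, sq_abs,
      m2, nD] at nA
    have hccn : ‖cc‖ ^ 2 = cP κ hd he ^ 2 := by
      rw [hcc, Complex.norm_real, Real.norm_eq_abs, sq_abs]
    have h4n : ‖(4 : ℂ)‖ = 4 := by simp
    rw [hccn, h4n] at nA
    unfold fac
    rw [hgR]
    have hs1 : (1 + s) ≠ 0 := by positivity
    have hPP : R * R + SbP κ = P := by rw [hP]; ring
    rw [hPP]
    have hc : cP κ hd he ≠ 0 := hccR.ne'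
    have hκ0 : κ ≠ 0 := hκ.ne'
    have hhd0 : hd ≠ 0 := hhd.ne'
    have hP00 : P ≠ 0 := hP0.ne'
    rw [← nT]
    field_simp
    field_simp at nA
    linarith

theorem blko_mulstar (x : ℂ) (h : ℝ) (hx : ‖x‖ = h) : x * star x = ((h ^ 2 : ℝ) : ℂ) := by
  have h1 : x * star x = ((Complex.normSq x : ℝ) : ℂ) := Complex.mul_conj x
  rw [h1, Complex.normSq_eq_norm_sq, hx]

theorem st_BLKO : ST_BLKO := by
  intro hALT p q r hp hq hr τ G hG c d e hdist ε m hm2 hm hev x ξ z hξ hCh hn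
  have hodd : m % 2 = 1 := by
    simp only [ev2, decide_eq_false_iff_not] at hev
    omega
  have hm1 : 1 ≤ m := by omega
  have hcd : c ≠ d := hdist.1
  have hde : d ≠ e := hdist.2.1
  have hec : e ≠ c := hdist.2.2
  have M3 := blko_mm3 p q r hp hq hr d e hde
  obtain ⟨kde1, kde2⟩ := blko_kkpos p q r hp hq hr d e hde
  obtain ⟨kcd1, kcd2⟩ := blko_kkpos p q r hp hq hr c d hcd
  obtain ⟨kce1, kce2⟩ := blko_kkpos p q r hp hq hr c e hec.symm
  obtain ⟨T1, T2, T3, T4, T5⟩ := blko_trig (mm p q r d e) m M3 hm1 hm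
  have hsin : Real.sin (Real.pi / (mm p q r d e : ℝ)) ≠ 0 := by
    have hM' : (3 : ℝ) ≤ (mm p q r d e : ℝ) := by exact_mod_cast M3
    have hMpos : (0 : ℝ) < (mm p q r d e : ℝ) := by linarith
    apply ne_of_gt
    apply Real.sin_pos_of_pos_of_lt_pi (div_pos Real.pi_pos hMpos)
    rw [div_lt_iff₀ hMpos]
    nlinarith [Real.pi_pos]
  have hA := hALT G (Real.pi / (mm p q r d e : ℝ)) (kk p q r d e) c d e x hdist hG.herm rfl hsin
    kde1.ne' (hG.nrm d e hde) ε m hm1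
  obtain ⟨ypiv, -, hodd'⟩ := hA
  obtain ⟨yd, ye⟩ := hodd' hodd
  have hu := hCh.hu
  have hy := hCh.hy
  have hpiv : x c = ξ := hCh.piv
  simp only at hu hy
  rw [hpiv] at ypiv yd ye
  have hι1 : iot τ d e = iot τ c d := by
    unfold iot
    rw [(blko_sgs c d e hdist).1]
  have hst : (sgs c d * τ) ^ 2 = τ ^ 2 := by
    rw [mul_pow, (blko_sgs c d e hdist).2, one_mul]
  unfold stepN at hn
  rw [hev] at hn
  have core := blko_core (kk p q r d e) (kk p q r c d) (kk p q r c e) (Rb (mm p q r d e) m) (τ ^ 2)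
    (sgs c d * τ) ε z (iot τ c d) (if ε then 1 else -1) (G c d) (G d c) (G d e) (G e d) (G e c)
    (G c e) ξ (x d) (x e) _ _ _ _ _ _ _ _ _ _ kde1 kde2 kcd1 kce1 rfl hst rfl
    (by rw [hG.herm c d]; exact blko_mulstar _ _ (hG.nrm c d hcd))
    (by rw [hG.herm d e]; exact blko_mulstar _ _ (hG.nrm d e hde))
    (by
      rw [hG.herm e c, blko_kksym p q r c e]
      exact blko_mulstar _ _ (hG.nrm e c hec))
    (hG.nrm c d hcd) (hG.nrm d e hde) (blko_tri p q r τ G hG c d e hdist) hξ hu hy hn rfl T1 T2 T3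
    T4 T5 yd ye rfl rfl rfl
  obtain ⟨c1, c2, c3, c4⟩ := core
  refine ⟨gact G (blk d e ε m) x d, c1, ?_, ?_⟩
  · rw [hev]
    unfold stepV
    rw [hev]
    refine ⟨rfl, ?_, ?_⟩
    · show -(2 * gact G (blk d e ε m) x e - G c e * gact G (blk d e ε m) x c -
        G d e * gact G (blk d e ε m) x d) * G e d = _
      rw [ypiv, c2]
      show _ = _ * _ * (_ + iot τ d e * _)
      rw [hι1]
      rfl
    · show ((4 * cP (kk p q r e c) (kk p q r d e) (kk p q r d c) : ℝ) : ℂ) * G c d *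
        gact G (blk d e ε m) x c = ((kk p q r d c * (kk p q r d e) ^ 2 : ℝ) : ℂ) *
        gact G (blk d e ε m) x d * (1 + iot τ d e) * (_ + iot τ d e * _)
      rw [ypiv, hι1, blko_kksym p q r e c, blko_kksym p q r d c]
      exact c3
  · unfold stepF
    rw [hev]
    exact c4

end Pool.Agent.Helper6.MONO
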